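import Pool.Agent.Lib_FM.Vocab

/-!
# Weakly Dedekind-infinite and dyadically filterbase infinite sets

The notions of the problem, inside a structure for set theory with atoms.  All quantifiers range
over elements of the structure; `w` is the set `ω` of natural numbers.
-/

set_option autoImplicit false

namespace Pool.Agent.FM

variable {M : Type*} [AtomStr M]

/-- `X` is weakly Dedekind-infinite: its power set contains a countably infinite subset, i.e. there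
is an injective function on `ω` whose values are subsets of `X`. -/
def WeaklyDedekindInfinite (w X : M) : Prop :=
  ∃ f, FunOn f w ∧ Inj f ∧ ∀ n U, Rel f n U → IsSet U ∧ Subset U X

/-- `IWDI`: every infinite set is weakly Dedekind-infinite. -/
def IWDI (w : M) : Prop := ∀ X, IsSet X → ¬ FiniteSet w X → WeaklyDedekindInfinite w X

/-- `k = 2 ^ n` for natural numbers: `k` is equipotent to the power set of `n` -/
def TwoPow (w n k : M) : Prop :=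
  n ∈ w ∧ k ∈ w ∧ ∃ P, (∀ z, z ∈ P ↔ IsSet z ∧ Subset z n) ∧ Equipotent P k

/-- `j = 2 i` for natural numbers: `j` is the disjoint union of two sets equipotent to `i` -/
def Double (w i j : M) : Prop :=
  i ∈ w ∧ j ∈ w ∧ ∃ a b, IsSet a ∧ IsSet b ∧ (∀ z, z ∈ j ↔ z ∈ a ∨ z ∈ b) ∧ (∀ z ∈ a, z ∉ b) ∧
    Equipotent i a ∧ Equipotent i b

/-- `n ∈ ω` and `1 ≤ i ≤ 2 ^ n` -/
def Index (w n i : M) : Prop :=
  i ∈ w ∧ ¬ EmptySet i ∧ ∃ k, TwoPow w n k ∧ (i ∈ k ∨ i = k)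

/-- `V` is the member `𝒱ⁿᵢ` of the family `𝒱`, a function on pairs -/
def Val (𝒱 n i V : M) : Prop := ∃ p, Pair n i p ∧ Rel 𝒱 p V

/-- the elements of `U` which are not in `V` form a finite set -/
def FinDiff (w U V : M) : Prop :=
  ∃ D, IsSet D ∧ (∀ z, z ∈ D ↔ z ∈ U ∧ z ∉ V) ∧ FiniteSet w D

/-- `V` is a filterbase in `X`, closed under finite unions and finite intersections, all of whose
members are infinite sets -/
structure InfFilterbase (w X V : M) : Prop where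
  nonempty : ∃ U, U ∈ V
  subset : ∀ U ∈ V, IsSet U ∧ Subset U X
  infinite : ∀ U ∈ V, ¬ FiniteSet w U
  union : ∀ U ∈ V, ∀ U' ∈ V, ∃ W ∈ V, ∀ z, z ∈ W ↔ z ∈ U ∨ z ∈ U'
  inter : ∀ U ∈ V, ∀ U' ∈ V, ∃ W ∈ V, ∀ z, z ∈ W ↔ z ∈ U ∧ z ∈ U'

/-- `X` is dyadically filterbase infinite. -/
def DyadicallyFilterbaseInfinite (w X : M) : Prop :=
  ∃ D 𝒱, (∀ p, p ∈ D ↔ ∃ n i, Index w n i ∧ Pair n i p) ∧ FunOn 𝒱 D ∧
    -- (1)
    (∀ n i V, Val 𝒱 n i V → InfFilterbase w X V) ∧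
    -- (2)
    (∀ n i V, Val 𝒱 n i V → ∀ U ∈ V, ∀ U' ∈ V, FinDiff w U U') ∧
    -- (3)
    (∀ n n' i j i₁ i₂ Vi Vj V₁ V₂, Succ n n' → Index w n i → Index w n j → i ≠ j →
      Double w i i₂ → Succ i₁ i₂ → Val 𝒱 n i Vi → Val 𝒱 n j Vj → Val 𝒱 n' i₁ V₁ →
      Val 𝒱 n' i₂ V₂ → ∀ W ∈ Vi, ∀ G ∈ Vj, ∃ U ∈ V₁, ∃ V ∈ V₂, ∃ Z, IsSet Z ∧
        (∀ z, z ∈ Z ↔ z ∈ U ∨ z ∈ V) ∧ FinDiff w Z W ∧
        ∃ Z', IsSet Z' ∧ (∀ z, z ∈ Z' ↔ z ∈ Z ∧ z ∈ G) ∧ FiniteSet w Z') ∧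
    -- (4)
    (∀ n ∈ w, ∀ I c, (∀ i, i ∈ I ↔ Index w n i) → FunOn c I →
      (∀ i U V, Rel c i U → Val 𝒱 n i V → U ∈ V) →
      ∃ Z, IsSet Z ∧ (∀ z, z ∈ Z ↔ ∃ i U, Rel c i U ∧ z ∈ U) ∧ FinDiff w X Z)

/-- `IDFBI`: every infinite set is dyadically filterbase infinite. -/
def IDFBI (w : M) : Prop := ∀ X, IsSet X → ¬ FiniteSet w X → DyadicallyFilterbaseInfinite w X

end Pool.Agent.FM
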