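import Pool.Agent.Lib_FM.Trans
import Pool.Agent.Lib_MP_42b9e0_lc.Defs

/-!
# A criterion for dyadic filterbase infiniteness in permutation models
-/

set_option autoImplicit false

namespace Pool.Agent.FM

variable {Γ A : Type} [Group Γ] [MulAction Γ A] {S : Sys Γ A}

namespace M

theorem exists_powerset_num (m : ℕ) : ∃ P : M S, IsSet P ∧ (∀ z, z ∈ P ↔ IsSet z ∧ Subset z (num m)) ∧
    (el P).Finite ∧ (el P).ncard = 2 ^ m := by
  obtain ⟨P, h1, h2⟩ := (zfa S).powerset (num m)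
  have hinj : Set.InjOn (el : M S → Set (M S)) (el P) := by
    intro x hx y hy h
    exact el_inj ((h2 x).1 hx).1 ((h2 y).1 hy).1 h
  have himg : el '' (el P) = 𝒫 (el (num m : M S)) := by
    ext C
    constructor
    · rintro ⟨x, hx, rfl⟩
      exact ((h2 x).1 hx).2
    · intro hC
      obtain ⟨x, hx1, hx2⟩ := exists_finite ((finite_el_num m).subset hC)
      refine ⟨x, (h2 x).2 ⟨hx1, fun z hz => hC ((hx2 z).1 hz)⟩, ?_⟩
      ext z
      exact hx2 z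
  have hfin : (el '' (el P)).Finite := by
    rw [himg]
    exact (finite_el_num m).powerset
  refine ⟨P, h1, h2, Set.Finite.of_finite_image hfin hinj, ?_⟩
  rw [← Set.InjOn.ncard_image hinj, himg, Set.ncard_powerset _ (finite_el_num m), ncard_el_num]

theorem twoPow_iff {n k : M S} : TwoPow om n k ↔ ∃ m, n = num m ∧ k = num (2 ^ m) := by
  constructor
  · rintro ⟨hn, hk, P, hP, he⟩
    obtain ⟨m, rfl⟩ := mem_om.1 hn
    obtain ⟨l, rfl⟩ := mem_om.1 hk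
    refine ⟨m, rfl, ?_⟩
    obtain ⟨P', h1, h2, h3, h4⟩ := exists_powerset_num (S := S) m
    have hPs : IsSet P := isSet_of_mem ((hP (num 0)).2
      ⟨isSet_num 0, fun z hz => (not_mem_num_zero z hz).elim⟩)
    have : P = P' := ext hPs h1 fun z => by rw [hP, h2]
    subst this
    have := ncard_eq_of_equipotent he
    rw [h4, ncard_el_num] at this
    rw [this]
  · rintro ⟨m, rfl, rfl⟩
    obtain ⟨P', h1, h2, h3, h4⟩ := exists_powerset_num (S := S) m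
    exact ⟨num_mem_om _, num_mem_om _, P', h2,
      equipotent_of_ncard h3 (finite_el_num _) (by rw [h4, ncard_el_num])⟩

theorem double_iff {i j : M S} : Double om i j ↔ ∃ m, i = num m ∧ j = num (2 * m) := by
  constructor
  · rintro ⟨hi, hj, a, b, ha, hb, hab, hdis, h1, h2⟩
    obtain ⟨m, rfl⟩ := mem_om.1 hi
    obtain ⟨l, rfl⟩ := mem_om.1 hj
    refine ⟨m, rfl, ?_⟩
    have e : el (num l : M S) = el a ∪ el b := by
      ext z; exact hab z
    have hd : Disjoint (el a) (el b) := by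
      rw [Set.disjoint_left]
      exact hdis
    have fa : (el a).Finite := (finite_iff_of_equipotent h1).1 (finite_el_num m)
    have fb : (el b).Finite := (finite_iff_of_equipotent h2).1 (finite_el_num m)
    have := Set.ncard_union_eq hd fa fb
    rw [← e, ncard_el_num, ← ncard_eq_of_equipotent h1, ← ncard_eq_of_equipotent h2,
      ncard_el_num] at this
    rw [this, two_mul]
  · rintro ⟨m, rfl, rfl⟩
    obtain ⟨a, ha, ha'⟩ := exists_finite (S := S) (C := num '' (Set.Iio m)) ((Set.finite_Iio m).image _)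
    obtain ⟨b, hb, hb'⟩ := exists_finite (S := S) (C := num '' (Set.Ico m (2 * m)))
      ((Set.finite_Ico _ _).image _)
    have ea : el a = num '' (Set.Iio m) := Set.ext ha'
    have eb : el b = num '' (Set.Ico m (2 * m)) := Set.ext hb'
    have hi : Function.Injective (num : ℕ → M S) := fun a b h => num_inj.1 h
    refine ⟨num_mem_om _, num_mem_om _, a, b, ha, hb, ?_, ?_, ?_, ?_⟩
    · intro z
      rw [mem_num_iff, ha', hb']
      constructor
      · rintro ⟨k, hk, rfl⟩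
        rcases lt_or_ge k m with h | h
        · exact Or.inl ⟨k, h, rfl⟩
        · exact Or.inr ⟨k, ⟨h, hk⟩, rfl⟩
      · rintro (⟨k, hk, rfl⟩ | ⟨k, hk, rfl⟩)
        · exact ⟨k, by rw [Set.mem_Iio] at hk; omega, rfl⟩
        · exact ⟨k, hk.2, rfl⟩
    · intro z hz hz'
      obtain ⟨k, hk, rfl⟩ := (ha' _).1 hz
      obtain ⟨l, hl, h⟩ := (hb' _).1 hz'
      have := hi h
      subst this
      exact absurd hk (not_lt.2 hl.1)
    · refine equipotent_of_ncard (finite_el_num m) (by rw [ea]; exact (Set.finite_Iio m).image _) ?_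
      rw [ea, ← el_num]
    · refine equipotent_of_ncard (finite_el_num m)
        (by rw [eb]; exact (Set.finite_Ico _ _).image _) ?_
      rw [eb, ncard_el_num, Set.ncard_image_of_injective _ hi, Set.ncard_eq_toFinset_card']
      simp
      omega

theorem index_iff {n i : M S} :
    Index om n i ↔ ∃ m k, n = num m ∧ i = num k ∧ 1 ≤ k ∧ k ≤ 2 ^ m := by
  constructor
  · rintro ⟨hi, hne, k, hk, hik⟩
    obtain ⟨m, rfl, rfl⟩ := twoPow_iff.1 hk
    obtain ⟨l, rfl⟩ := mem_om.1 hi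
    refine ⟨m, l, rfl, rfl, ?_, ?_⟩
    · rcases Nat.eq_zero_or_pos l with h | h
      · subst h
        exact (hne (emptySet_iff.2 rfl)).elim
      · exact h
    · rcases hik with h | h
      · exact (num_mem_num.1 h).le
      · exact (num_inj.1 h).le
  · rintro ⟨m, k, rfl, rfl, h1, h2⟩
    refine ⟨num_mem_om _, fun h => ?_, num (2 ^ m), twoPow_iff.2 ⟨m, rfl, rfl⟩, ?_⟩
    · have := num_inj.1 (emptySet_iff.1 h)
      omega
    · rcases lt_or_eq_of_le h2 with h | h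
      · exact Or.inl (num_mem_num.2 h)
      · exact Or.inr (by rw [h])

theorem finDiff_iff {U V : M S} (h : ∃ D : M S, IsSet D ∧ ∀ z, z ∈ D ↔ z ∈ U ∧ z ∉ V) :
    FinDiff om U V ↔ (el U \ el V).Finite := by
  obtain ⟨D, h1, h2⟩ := h
  have e : el D = el U \ el V := Set.ext h2
  constructor
  · rintro ⟨D', h1', h2', h3⟩
    have e' : el D' = el U \ el V := Set.ext h2'
    rw [← e']
    exact finiteSet_iff.1 h3
  · intro h
    exact ⟨D, h1, h2, finiteSet_iff.2 (by rw [e]; exact h)⟩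

theorem exists_diff (U V : M S) : ∃ D : M S, IsSet D ∧ ∀ z, z ∈ D ↔ z ∈ U ∧ z ∉ V := by
  obtain ⟨s, hs, ht⟩ := exists_supp₂ U V
  obtain ⟨D, h1, h2, -⟩ := exists_set (S := S) (C := {z | z ∈ U ∧ z ∉ V}) (s := s)
    ((small_elems U).mono fun z hz => hz.1)
    (fun σ hσ z hz => ⟨(hs.mem_iff hσ z).2 hz.1, fun h => hz.2 ((ht.mem_iff hσ z).1 h)⟩)
  exact ⟨D, h1, h2⟩

theorem exists_union (U V : M S) : ∃ D : M S, IsSet D ∧ ∀ z, z ∈ D ↔ z ∈ U ∨ z ∈ V := by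
  obtain ⟨s, hs, ht⟩ := exists_supp₂ U V
  obtain ⟨D, h1, h2, -⟩ := exists_set (S := S) (C := {z | z ∈ U ∨ z ∈ V}) (s := s)
    (((small_elems U).union (small_elems V)).mono fun z hz => hz)
    (fun σ hσ z hz => hz.imp (fun h => (hs.mem_iff hσ z).2 h) (fun h => (ht.mem_iff hσ z).2 h))
  exact ⟨D, h1, h2⟩

theorem exists_inter (U V : M S) : ∃ D : M S, IsSet D ∧ ∀ z, z ∈ D ↔ z ∈ U ∧ z ∈ V := by
  obtain ⟨s, hs, ht⟩ := exists_supp₂ U V
  obtain ⟨D, h1, h2, -⟩ := exists_set (S := S) (C := {z | z ∈ U ∧ z ∈ V}) (s := s)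
    ((small_elems U).mono fun z hz => hz.1)
    (fun σ hσ z hz => ⟨(hs.mem_iff hσ z).2 hz.1, (ht.mem_iff hσ z).2 hz.2⟩)
  exact ⟨D, h1, h2⟩

theorem finDiff_iff' {U V : M S} : FinDiff om U V ↔ (el U \ el V).Finite :=
  finDiff_iff (exists_diff U V)

/-- The criterion. -/
theorem dfbi_of {X : M S} {s : S.ι} (hs : Supp S s X) (a : ℕ → ℕ → Set (M S))
    (ha : ∀ n i, a n i ⊆ el X)
    (hinf : ∀ n i, 1 ≤ i → i ≤ 2 ^ n → (a n i).Infinite)
    (hsym : ∀ n i, ∃ t, SuppC t (a n i))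
    (hmod : ∀ n i, ∀ σ ∈ S.H s, {x | x ∈ a n i ∧ σ • x ∉ a n i}.Finite)
    (hsplit : ∀ n i, 1 ≤ i → i ≤ 2 ^ n → a (n + 1) (2 * i - 1) ∪ a (n + 1) (2 * i) = a n i)
    (hdisj : ∀ n i j, i ≠ j → Disjoint (a n i) (a n j))
    (hcov : ∀ n, ∀ x ∈ X, ∃ i, 1 ≤ i ∧ i ≤ 2 ^ n ∧ x ∈ a n i) :
    DyadicallyFilterbaseInfinite om X := by
  classical
  -- the sets `a n i` in the model
  have hA : ∀ n i, ∃ U : M S, IsSet U ∧ ∀ z, z ∈ U ↔ z ∈ a n i := by
    intro n i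
    obtain ⟨t, ht⟩ := hsym n i
    obtain ⟨U, h1, h2, -⟩ := exists_set (S := S) ((small_elems X).mono (ha n i)) ht
    exact ⟨U, h1, h2⟩
  choose U hU hU' using hA
  have eU : ∀ n i, el (U n i) = a n i := fun n i => Set.ext (hU' n i)
  -- the filterbases
  have hV : ∀ n i, ∃ V : M S, IsSet V ∧ (∀ W, W ∈ V ↔ IsSet W ∧ (∀ y ∈ W, y ∈ X) ∧
      (el W \ a n i).Finite ∧ (a n i \ el W).Finite) ∧ Supp S s V := by
    intro n i
    obtain ⟨V, h1, h2, h3⟩ := exists_set (S := S) (C := {W | IsSet W ∧ (∀ y ∈ W, y ∈ X) ∧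
      (el W \ a n i).Finite ∧ (a n i \ el W).Finite}) (s := s)
      ((small_elems X).powerset.mono fun W hW => ⟨hW.1, hW.2.1⟩)
      (by
        rintro σ hσ W ⟨hW, hWX, hf1, hf2⟩
        refine ⟨(isSet_smul_iff σ W).2 hW, ?_, ?_, ?_⟩
        · intro y hy
          rw [mem_smul_iff] at hy
          have := (hs.mem_iff hσ _).2 (hWX _ hy)
          rwa [smul_inv_smul] at this
        · refine ((hf1.union (hmod n i σ hσ)).image (fun y => σ • y)).subset ?_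
          rintro y ⟨hy1, hy2⟩
          have hy1' : σ⁻¹ • y ∈ W := (mem_smul_iff _ _ _).1 hy1
          refine ⟨σ⁻¹ • y, ?_, smul_inv_smul σ y⟩
          by_cases h : σ⁻¹ • y ∈ a n i
          · right
            refine ⟨h, ?_⟩
            rw [smul_inv_smul]
            exact hy2
          · exact Or.inl ⟨hy1', h⟩
        · refine ((hmod n i σ⁻¹ ((S.H s).inv_mem hσ)).union (hf2.image fun y => σ • y)).subset ?_
          rintro y ⟨hy1, hy2⟩
          by_cases h : σ⁻¹ • y ∈ a n i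
          · right
            refine ⟨σ⁻¹ • y, ⟨h, fun h' => hy2 ?_⟩, smul_inv_smul σ y⟩
            exact (mem_smul_iff _ _ _).2 h'
          · exact Or.inl ⟨hy1, h⟩)
    exact ⟨V, h1, h2, h3⟩
  choose V hVs hV hVsupp using hV
  have hUV : ∀ n i, U n i ∈ V n i := by
    intro n i
    refine (hV n i _).2 ⟨hU n i, fun y hy => ha n i ((hU' n i y).1 hy), ?_, ?_⟩
    · rw [eU, Set.sdiff_self]; exact Set.finite_empty
    · rw [eU, Set.sdiff_self]; exact Set.finite_empty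
  -- the index set
  obtain ⟨D, hD, hD', -⟩ := exists_set (S := S)
    (C := {p | ∃ n i, (1 ≤ i ∧ i ≤ 2 ^ n) ∧ p = opair (num n) (num i)}) (s := s)
    ((small_range (fun q : ℕ × ℕ => (opair (num q.1) (num q.2) : M S))).mono
      (by rintro p ⟨n, i, -, rfl⟩; exact ⟨(n, i), rfl⟩))
    (by
      rintro σ - p ⟨n, i, h, rfl⟩
      exact ⟨n, i, h, by rw [smul_opair, smul_num, smul_num]⟩)
  obtain ⟨𝒱, h𝒱1, h𝒱2, h𝒱3, -⟩ := exists_rel (S := S)
    (R := fun p W => ∃ n i, (1 ≤ i ∧ i ≤ 2 ^ n) ∧ p = opair (num n) (num i) ∧ W = V n i)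
    (C := Set.range (fun q : ℕ × ℕ => (opair (num q.1) (num q.2) : M S)))
    (D := Set.range (fun q : ℕ × ℕ => V q.1 q.2)) (small_range _) (small_range _)
    (by rintro p W ⟨n, i, -, rfl, rfl⟩; exact ⟨⟨(n, i), rfl⟩, ⟨(n, i), rfl⟩⟩) (s := s)
    (by
      rintro σ hσ p W ⟨n, i, h, rfl, rfl⟩
      exact ⟨n, i, h, by rw [smul_opair, smul_num, smul_num], hVsupp n i σ hσ⟩)
  have hnum : ∀ {n i n' i' : ℕ}, (opair (num n) (num i) : M S) = opair (num n') (num i') →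
      n = n' ∧ i = i' := by
    intro n i n' i' h
    obtain ⟨h1, h2⟩ := opair_inj.1 h
    exact ⟨num_inj.1 h1, num_inj.1 h2⟩
  have hVal : ∀ n i W : M S, Val 𝒱 n i W ↔
      ∃ m k, n = num m ∧ i = num k ∧ 1 ≤ k ∧ k ≤ 2 ^ m ∧ W = V m k := by
    intro n i W
    constructor
    · rintro ⟨p, hp, hR⟩
      obtain ⟨m, k, hk, hp', rfl⟩ := (h𝒱3 _ _).1 hR
      obtain ⟨rfl, rfl⟩ := opair_inj.1 ((pair_iff.1 hp).symm.trans hp')
      exact ⟨m, k, rfl, rfl, hk.1, hk.2, rfl⟩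
    · rintro ⟨m, k, rfl, rfl, h1, h2, rfl⟩
      exact ⟨_, pair_iff.2 rfl, (h𝒱3 _ _).2 ⟨m, k, ⟨h1, h2⟩, rfl, rfl⟩⟩
  refine ⟨D, 𝒱, ?_, ⟨h𝒱1, ?_, ?_⟩, ?_, ?_, ?_, ?_⟩
  · intro p
    rw [hD']
    constructor
    · rintro ⟨n, i, h, rfl⟩
      exact ⟨num n, num i, index_iff.2 ⟨n, i, rfl, rfl, h.1, h.2⟩, pair_iff.2 rfl⟩
    · rintro ⟨n, i, h, hp⟩
      obtain ⟨m, k, rfl, rfl, h1, h2⟩ := index_iff.1 h
      exact ⟨m, k, ⟨h1, h2⟩, pair_iff.1 hp⟩
  · intro p hp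
    obtain ⟨q, W, ⟨n, i, h, rfl, rfl⟩, rfl⟩ := (h𝒱2 p).1 hp
    exact ⟨_, (hD' _).2 ⟨n, i, h, rfl⟩, _, pair_iff.2 rfl⟩
  · intro p hp
    obtain ⟨n, i, h, rfl⟩ := (hD' p).1 hp
    refine ⟨V n i, (h𝒱3 _ _).2 ⟨n, i, h, rfl, rfl⟩, ?_⟩
    intro W hW
    obtain ⟨n', i', -, h1, rfl⟩ := (h𝒱3 _ _).1 hW
    obtain ⟨rfl, rfl⟩ := hnum h1
    rfl
  · -- (1)
    intro n i W hW
    obtain ⟨m, k, rfl, rfl, hk1, hk2, rfl⟩ := (hVal _ _ _).1 hW
    refine ⟨⟨U m k, hUV m k⟩, ?_, ?_, ?_, ?_⟩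
    · intro Z hZ
      obtain ⟨h1, h2, -, -⟩ := (hV m k Z).1 hZ
      exact ⟨h1, h2⟩
    · intro Z hZ hfin
      obtain ⟨h1, h2, h3, h4⟩ := (hV m k Z).1 hZ
      refine hinf m k hk1 hk2 ((h4.union (finiteSet_iff.1 hfin)).subset ?_)
      intro z hz
      by_cases h : z ∈ Z
      · exact Or.inr h
      · exact Or.inl ⟨hz, h⟩
    · intro Z hZ Z' hZ'
      obtain ⟨h1, h2, h3, h4⟩ := (hV m k Z).1 hZ
      obtain ⟨h1', h2', h3', h4'⟩ := (hV m k Z').1 hZ'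
      obtain ⟨W, hW1, hW2⟩ := exists_union Z Z'
      refine ⟨W, (hV m k W).2 ⟨hW1, ?_, ?_, ?_⟩, hW2⟩
      · intro y hy
        rcases (hW2 y).1 hy with h | h
        · exact h2 y h
        · exact h2' y h
      · refine (h3.union h3').subset ?_
        rintro y ⟨hy, hy'⟩
        rcases (hW2 y).1 hy with h | h
        · exact Or.inl ⟨h, hy'⟩
        · exact Or.inr ⟨h, hy'⟩
      · refine h4.subset ?_
        rintro y ⟨hy, hy'⟩
        exact ⟨hy, fun h => hy' ((hW2 y).2 (Or.inl h))⟩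
    · intro Z hZ Z' hZ'
      obtain ⟨h1, h2, h3, h4⟩ := (hV m k Z).1 hZ
      obtain ⟨h1', h2', h3', h4'⟩ := (hV m k Z').1 hZ'
      obtain ⟨W, hW1, hW2⟩ := exists_inter Z Z'
      refine ⟨W, (hV m k W).2 ⟨hW1, ?_, ?_, ?_⟩, hW2⟩
      · intro y hy
        exact h2 y ((hW2 y).1 hy).1
      · refine h3.subset ?_
        rintro y ⟨hy, hy'⟩
        exact ⟨((hW2 y).1 hy).1, hy'⟩
      · refine (h4.union h4').subset ?_
        rintro y ⟨hy, hy'⟩
        by_cases h : y ∈ Z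
        · right
          exact ⟨hy, fun h' => hy' ((hW2 y).2 ⟨h, h'⟩)⟩
        · exact Or.inl ⟨hy, h⟩
  · -- (2)
    intro n i W hW Z hZ Z' hZ'
    obtain ⟨m, k, rfl, rfl, hk1, hk2, rfl⟩ := (hVal _ _ _).1 hW
    obtain ⟨h1, h2, h3, h4⟩ := (hV m k Z).1 hZ
    obtain ⟨h1', h2', h3', h4'⟩ := (hV m k Z').1 hZ'
    rw [finDiff_iff']
    refine (h3.union h4').subset ?_
    rintro y ⟨hy, hy'⟩
    by_cases h : y ∈ a m k
    · exact Or.inr ⟨h, hy'⟩
    · exact Or.inl ⟨hy, h⟩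
  · -- (3)
    intro n n' i j i₁ i₂ Vi Vj V₁ V₂ hn hi hj hij hd hsu hVi hVj hV₁ hV₂ W hW G hG
    obtain ⟨m, k, rfl, rfl, hk1, hk2, rfl⟩ := (hVal _ _ _).1 hVi
    obtain ⟨m', k', hm', rfl, hk1', hk2', rfl⟩ := (hVal _ _ _).1 hVj
    rw [num_inj] at hm'
    subst hm'
    rw [succ_num_iff] at hn
    subst hn
    obtain ⟨m₁, k₁, hm₁, rfl, hk11, hk12, rfl⟩ := (hVal _ _ _).1 hV₁
    rw [num_inj] at hm₁
    subst hm₁
    obtain ⟨m₂, k₂, hm₂, rfl, hk21, hk22, rfl⟩ := (hVal _ _ _).1 hV₂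
    rw [num_inj] at hm₂
    subst hm₂
    rw [succ_num_iff, num_inj] at hsu
    obtain ⟨k₃, h31, h32⟩ := double_iff.1 hd
    rw [num_inj] at h31 h32
    subst h31
    have e1 : k₁ = 2 * k - 1 := by omega
    have e2 : k₂ = 2 * k := h32
    rw [e1, e2]
    have hsp := hsplit m k hk1 hk2
    obtain ⟨Z, hZ, hZ'⟩ := exists_union (U (m + 1) (2 * k - 1)) (U (m + 1) (2 * k))
    have eZ : el Z = a m k := by
      rw [← hsp, ← eU, ← eU]
      exact Set.ext hZ'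
    obtain ⟨h1, h2, h3, h4⟩ := (hV m k W).1 hW
    obtain ⟨h1', h2', h3', h4'⟩ := (hV m k' G).1 hG
    obtain ⟨Z', hZ1, hZ2⟩ := exists_inter Z G
    refine ⟨U (m + 1) (2 * k - 1), hUV _ _, U (m + 1) (2 * k), hUV _ _, Z, hZ, hZ', ?_, Z', hZ1,
      hZ2, ?_⟩
    · rw [finDiff_iff', eZ]
      exact h4
    · rw [finiteSet_iff]
      refine h3'.subset ?_
      intro y hy
      obtain ⟨hy1, hy2⟩ := (hZ2 y).1 hy
      refine ⟨hy2, fun h => ?_⟩
      have hy3 : y ∈ a m k := by rw [← eZ]; exact hy1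
      have hkk : k ≠ k' := fun h => hij (by rw [h])
      exact Set.disjoint_left.1 (hdisj m k k' hkk) hy3 h
  · -- (4)
    intro n hn I c hI hc hcV
    obtain ⟨m, rfl⟩ := mem_om.1 hn
    have hIm : ∀ k, 1 ≤ k → k ≤ 2 ^ m → ∃ Z, Rel c (num k) Z ∧ Z ∈ V m k := by
      intro k h1 h2
      have hk : (num k : M S) ∈ I := (hI _).2 (index_iff.2 ⟨m, k, rfl, rfl, h1, h2⟩)
      obtain ⟨Z, hZ, -⟩ := hc.2.2 _ hk
      exact ⟨Z, hZ, hcV _ _ _ hZ ((hVal _ _ _).2 ⟨m, k, rfl, rfl, h1, h2, rfl⟩)⟩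
    obtain ⟨t, ht⟩ := exists_supp c
    obtain ⟨Z, hZ, hZ', -⟩ := exists_set (S := S) (C := {z | ∃ i U, Rel c i U ∧ z ∈ U}) (s := t)
      ((small_elems X).mono (by
        rintro z ⟨i, W, hW, hz⟩
        have hi : i ∈ I := by
          obtain ⟨p, hp, hpc⟩ := hW
          obtain ⟨i', hi', W', hp'⟩ := hc.2.1 p hpc
          have := opair_inj.1 ((pair_iff.1 hp).symm.trans (pair_iff.1 hp'))
          rw [this.1]; exact hi'
        obtain ⟨m', k, hm, rfl, h1, h2⟩ := index_iff.1 ((hI i).1 hi)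
        rw [num_inj] at hm
        subst hm
        have h3 := hcV _ _ _ hW ((hVal _ _ _).2 ⟨m, k, rfl, rfl, h1, h2, rfl⟩)
        exact ((hV m k W).1 h3).2.1 z hz))
      (by
        rintro σ hσ z ⟨i, W, hW, hz⟩
        exact ⟨σ • i, σ • W, (rel_smul_iff ht hσ i W).2 hW, (smul_mem_smul_iff σ W z).2 hz⟩)
    refine ⟨Z, hZ, hZ', ?_⟩
    rw [finDiff_iff']
    have hfin : (⋃ k ∈ Set.Icc 1 (2 ^ m), (a m k \ el Z)).Finite := by
      refine Set.Finite.biUnion (Set.finite_Icc _ _) ?_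
      intro k hk
      obtain ⟨W, hW1, hW2⟩ := hIm k hk.1 hk.2
      obtain ⟨-, -, -, h4⟩ := (hV m k W).1 hW2
      refine h4.subset ?_
      rintro y ⟨hy1, hy2⟩
      exact ⟨hy1, fun h => hy2 ((hZ' y).2 ⟨_, _, hW1, h⟩)⟩
    refine hfin.subset ?_
    rintro y ⟨hy1, hy2⟩
    obtain ⟨k, h1, h2, h3⟩ := hcov m y hy1
    exact Set.mem_biUnion (show k ∈ Set.Icc 1 (2 ^ m) from ⟨h1, h2⟩) ⟨h3, hy2⟩

end M

end Pool.Agent.FM
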