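import Pool.Agent.Lib_MP_42b9e0_lc.Crit

/-!
# A permutation model in which every infinite set is dyadically filterbase infinite, but not every
infinite set is weakly Dedekind-infinite
-/

set_option autoImplicit false

namespace Pool.Agent.FM

/-! ### binary codes -/

/-- the number whose binary digits (the first is the most significant one) are the answers to
`m ∈ c`, `m + 1 ∈ c`, …, `m + n - 1 ∈ c` -/
def code (m : ℕ) : ℕ → Finset ℕ → ℕ
  | 0, _ => 0
  | n + 1, c => 2 * code m n c + (if m + n ∈ c then 1 else 0)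

theorem code_lt (m n : ℕ) (c : Finset ℕ) : code m n c < 2 ^ n := by
  induction n with
  | zero => simp [code]
  | succ n ih =>
    rw [code, pow_succ]
    split_ifs <;> omega

theorem code_congr (m n : ℕ) {c c' : Finset ℕ} (h : ∀ i, m ≤ i → i < m + n → (i ∈ c ↔ i ∈ c')) :
    code m n c = code m n c' := by
  induction n with
  | zero => rfl
  | succ n ih =>
    rw [code, code, ih fun i h1 h2 => h i h1 (by omega)]
    have := h (m + n) (by omega) (by omega)
    simp [this]

theorem exists_code (m : ℕ) (r : Finset ℕ) (n : ℕ) : ∀ k, k < 2 ^ n → ∃ c : Finset ℕ,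
    (∀ i < m, (i ∈ c ↔ i ∈ r)) ∧ code m n c = k ∧ ∀ i ∈ c, i < m + n := by
  induction n with
  | zero =>
    intro k hk
    refine ⟨r.filter (· < m), fun i hi => by simp [hi], ?_, fun i hi => by simpa using
      (Finset.mem_filter.1 hi).2⟩
    rw [code]
    simp at hk
    exact hk.symm
  | succ n ih =>
    intro k hk
    obtain ⟨c, h1, h2, h3⟩ := ih (k / 2) (by rw [pow_succ] at hk; omega)
    have hmn : m + n ∉ c := fun h => lt_irrefl _ (h3 _ h)
    rcases Nat.mod_two_eq_zero_or_one k with hk2 | hk2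
    · refine ⟨c, h1, ?_, fun i hi => lt_trans (h3 i hi) (by omega)⟩
      rw [code, h2, if_neg hmn]
      omega
    · refine ⟨insert (m + n) c, ?_, ?_, ?_⟩
      · intro i hi
        rw [Finset.mem_insert, ← h1 i hi]
        constructor
        · rintro (h | h)
          · omega
          · exact h
        · exact Or.inr
      · rw [code, if_pos (Finset.mem_insert_self _ _)]
        have : code m n (insert (m + n) c) = code m n c := code_congr m n fun i _ hi => by
          rw [Finset.mem_insert]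
          constructor
          · rintro (h | h)
            · omega
            · exact h
          · exact Or.inr
        rw [this, h2]
        omega
      · intro i hi
        rcases Finset.mem_insert.1 hi with h | h
        · omega
        · exact lt_trans (h3 i h) (by omega)

theorem infinite_code (m : ℕ) (r : Finset ℕ) (n k : ℕ) (hk : k < 2 ^ n) :
    {c : Finset ℕ | (∀ i < m, (i ∈ c ↔ i ∈ r)) ∧ code m n c = k}.Infinite := by
  obtain ⟨c, h1, h2, h3⟩ := exists_code m r n k hk
  have hinj : Function.Injective (fun j : ℕ => insert (m + n + j) c) := by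
    intro j j' h
    have h4 : m + n + j ∈ insert (m + n + j') c := by
      rw [← show insert (m + n + j) c = insert (m + n + j') c from h]
      exact Finset.mem_insert_self _ _
    rcases Finset.mem_insert.1 h4 with h5 | h5
    · omega
    · have := h3 _ h5
      omega
  refine (Set.infinite_range_of_injective hinj).mono ?_
  rintro _ ⟨j, rfl⟩
  refine ⟨fun i hi => ?_, ?_⟩
  · rw [← h1 i hi]
    change i ∈ insert (m + n + j) c ↔ _
    rw [Finset.mem_insert]
    constructor
    · rintro (h | h)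
      · omega
      · exact h
    · exact Or.inr
  · rw [← h2]
    refine code_congr m n fun i _ hi => ?_
    change i ∈ insert (m + n + j) c ↔ _
    rw [Finset.mem_insert]
    constructor
    · rintro (h | h)
      · omega
      · exact h
    · exact Or.inr

/-! ### the criterion with a labelling -/

section rho

variable {Γ A : Type} [Group Γ] [MulAction Γ A] {S : Sys Γ A}

open M

theorem dfbi_of_rho {X : M S} {s : S.ι} (hs : Supp S s X) (m : ℕ) (ρ : M S → Finset ℕ)
    (ha : ∀ σ ∈ S.H s, {x | x ∈ X ∧ ρ (σ • x) ≠ ρ x}.Finite)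
    (hb : ∀ n, ∃ t, ∀ σ ∈ S.H t, ∀ x ∈ X, ∀ i < n, (i ∈ ρ (σ • x) ↔ i ∈ ρ x))
    (hc : ∀ n k, k < 2 ^ n → {x | x ∈ X ∧ code m n (ρ x) = k}.Infinite) :
    DyadicallyFilterbaseInfinite om X := by
  refine dfbi_of hs (fun n i => {x | x ∈ X ∧ code m n (ρ x) + 1 = i}) ?_ ?_ ?_ ?_ ?_ ?_ ?_
  · intro n i x hx
    exact hx.1
  · intro n i h1 h2
    refine (hc n (i - 1) (by omega)).mono ?_
    rintro x ⟨hx, hx'⟩
    exact ⟨hx, by omega⟩
  · intro n i
    obtain ⟨t, ht⟩ := hb (m + n)
    obtain ⟨r, hr1, hr2⟩ := S.dir s t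
    refine ⟨r, ?_⟩
    rintro σ hσ x ⟨hx, hx'⟩
    refine ⟨(hs.mem_iff (hr1 hσ) x).2 hx, ?_⟩
    rw [← hx', code_congr m n fun i _ hi => ht σ (hr2 hσ) x hx i hi]
  · intro n i σ hσ
    refine (ha σ hσ).subset ?_
    rintro x ⟨⟨hx, hx'⟩, hx''⟩
    refine ⟨hx, fun h => hx'' ⟨(hs.mem_iff hσ x).2 hx, ?_⟩⟩
    rw [h]
    exact hx'
  · intro n i h1 h2
    ext x
    simp only [Set.mem_union, Set.mem_ofPred_eq, code]
    by_cases h : m + n ∈ ρ x
    · rw [if_pos h]
      constructor
      · rintro (⟨h3, h4⟩ | ⟨h3, h4⟩)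
        · exact ⟨h3, by omega⟩
        · exact ⟨h3, by omega⟩
      · rintro ⟨h3, h4⟩
        exact Or.inr ⟨h3, by omega⟩
    · rw [if_neg h]
      constructor
      · rintro (⟨h3, h4⟩ | ⟨h3, h4⟩)
        · exact ⟨h3, by omega⟩
        · exact ⟨h3, by omega⟩
      · rintro ⟨h3, h4⟩
        exact Or.inl ⟨h3, by omega⟩
  · intro n i j hij
    rw [Set.disjoint_left]
    rintro x ⟨-, h1⟩ ⟨-, h2⟩
    exact hij (h1.symm.trans h2)
  · intro n x hx
    exact ⟨code m n (ρ x) + 1, by omega, code_lt m n _, hx, rfl⟩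

theorem dfbi_of_lam {X : M S} {s : S.ι} (hs : Supp S s X) (lam : M S → ℕ)
    (ha : ∀ σ ∈ S.H s, ∀ x ∈ X, lam (σ • x) = lam x) (hinf : (lam '' el X).Infinite) :
    DyadicallyFilterbaseInfinite om X := by
  classical
  have := hinf.to_subtype
  obtain ⟨e⟩ : Nonempty ((lam '' el X : Set ℕ) ≃ Finset ℕ) := by
    have := Denumerable.ofEncodableOfInfinite (lam '' el X : Set ℕ)
    exact ⟨(Denumerable.eqv _).trans (Denumerable.eqv _).symm⟩
  let ρ : M S → Finset ℕ := fun x => if h : lam x ∈ lam '' el X then e ⟨lam x, h⟩ else ∅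
  have hρ : ∀ x ∈ X, ∀ h : lam x ∈ lam '' el X, ρ x = e ⟨lam x, h⟩ := fun x hx h => dif_pos h
  have hρ' : ∀ x x', lam x = lam x' → ρ x = ρ x' := by
    intro x x' h
    change (if h : lam x ∈ lam '' el X then e ⟨lam x, h⟩ else ∅) =
      (if h : lam x' ∈ lam '' el X then e ⟨lam x', h⟩ else ∅)
    simp only [h]
  refine dfbi_of_rho hs 0 ρ ?_ ?_ ?_
  · intro σ hσ
    refine Set.finite_empty.subset ?_
    rintro x ⟨hx, hx'⟩
    exact hx' (hρ' _ _ (ha σ hσ x hx))
  · intro n
    refine ⟨s, fun σ hσ x hx i _ => ?_⟩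
    rw [hρ' _ _ (ha σ hσ x hx)]
  · intro n k hk
    have h1 := infinite_code 0 ∅ n k hk
    -- choose preimages
    have h2 : ∀ c : Finset ℕ, ∃ x ∈ X, ρ x = c := by
      intro c
      obtain ⟨x, hx, hx'⟩ := (e.symm c).2
      refine ⟨x, hx, ?_⟩
      rw [hρ x hx ⟨x, hx, rfl⟩]
      have : (⟨lam x, ⟨x, hx, rfl⟩⟩ : (lam '' el X : Set ℕ)) = e.symm c := Subtype.ext hx'
      rw [this, e.apply_symm_apply]
    choose g hg1 hg2 using h2
    have hginj : Function.Injective g := by
      intro c c' h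
      rw [← hg2 c, h, hg2]
    refine (h1.image (hginj.injOn)).mono ?_
    rintro _ ⟨c, hc, rfl⟩
    exact ⟨hg1 c, by rw [hg2]; exact hc.2⟩

end rho

/-! ### the model -/

/-- the atoms -/
abbrev At : Type := Finset ℕ

/-- the group of finitary permutations of the atoms -/
def finitary : Subgroup (Equiv.Perm At) where
  carrier := {π | {a | π a ≠ a}.Finite}
  mul_mem' := by
    intro π ρ h1 h2
    refine (h1.union h2).subset ?_
    intro a ha
    by_cases h : ρ a = a
    · left
      intro h'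
      exact ha (by rw [Equiv.Perm.mul_apply, h, h'])
    · exact Or.inr h
  one_mem' := by
    refine Set.finite_empty.subset ?_
    intro a ha
    exact ha rfl
  inv_mem' := by
    intro π h
    refine h.subset ?_
    intro a ha h'
    exact ha (by rw [Equiv.Perm.inv_eq_iff_eq]; exact h'.symm)

/-- the group of finitary permutations of the atoms -/
abbrev Gr : Type := finitary

theorem finite_moved (g : Gr) : {a : At | g • a ≠ a}.Finite := g.2

/-- the permutations fixing the atoms in `F` and preserving the sets `{a | i ∈ a}` for `i < n` -/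
def grp (F : Finset At) (n : ℕ) : Subgroup Gr where
  carrier := {σ | (∀ a ∈ F, σ • a = a) ∧ ∀ (a : At), ∀ i < n, (i ∈ σ • a ↔ i ∈ a)}
  mul_mem' := by
    rintro σ τ ⟨h1, h2⟩ ⟨h3, h4⟩
    refine ⟨fun a ha => by rw [mul_smul, h3 a ha, h1 a ha], fun a i hi => ?_⟩
    rw [mul_smul, h2 _ i hi, h4 _ i hi]
  one_mem' := ⟨fun a _ => one_smul _ a, fun a i _ => by rw [one_smul]⟩
  inv_mem' := by
    rintro σ ⟨h1, h2⟩
    refine ⟨fun a ha => by rw [inv_smul_eq_iff, h1 a ha], fun a i hi => ?_⟩
    rw [← h2 (σ⁻¹ • a) i hi, smul_inv_smul]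

theorem mem_grp {F : Finset At} {n : ℕ} {σ : Gr} :
    σ ∈ grp F n ↔ (∀ a ∈ F, σ • a = a) ∧ ∀ (a : At), ∀ i < n, (i ∈ σ • a ↔ i ∈ a) := Iff.rfl

theorem grp_mono {F F' : Finset At} {n n' : ℕ} (hF : F ⊆ F') (hn : n ≤ n') :
    grp F' n' ≤ grp F n := fun σ hσ =>
  ⟨fun a ha => hσ.1 a (hF ha), fun a i hi => hσ.2 a i (lt_of_lt_of_le hi hn)⟩

open Classical in
theorem grp_normal (g : Gr) (F : Finset At) (n : ℕ) :
    ∃ T : Finset At, ∀ σ ∈ grp T n, g⁻¹ * σ * g ∈ grp F n := by
  refine ⟨(F.image fun a => g • a) ∪ (finite_moved g).toFinset, ?_⟩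
  rintro σ ⟨h1, h2⟩
  have h3 : ∀ a : At, g • a ≠ a → σ • a = a := fun a ha =>
    h1 a (Finset.mem_union_right _ ((finite_moved g).mem_toFinset.2 ha))
  refine ⟨fun a ha => ?_, fun a i hi => ?_⟩
  · rw [mul_smul, mul_smul, h1 (g • a) (Finset.mem_union_left _ (Finset.mem_image_of_mem _ ha)),
      inv_smul_smul]
  · rw [mul_smul, mul_smul]
    by_cases hga : g • a = a
    · rw [hga]
      by_cases hb : g • (σ • a) = σ • a
      · have : g⁻¹ • σ • a = σ • a := by rw [inv_smul_eq_iff, hb]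
        rw [this]
        exact h2 a i hi
      · have h4 := h3 _ hb
        have h5 : σ • a = a := smul_left_cancel σ h4
        rw [h5] at hb
        exact (hb hga).elim
    · have h4 : g • (g • a) ≠ g • a := fun h => hga (smul_left_cancel g h)
      rw [h3 _ h4, inv_smul_smul]

open Classical in
/-- The system of supports: a support is a pair `(F, n)`. -/
def sys : Sys Gr At where
  ι := Finset At × ℕ
  H s := grp s.1 s.2
  ne := ⟨(∅, 0)⟩
  dir s t := ⟨(s.1 ∪ t.1, max s.2 t.2), grp_mono Finset.subset_union_left (le_max_left _ _),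
    grp_mono Finset.subset_union_right (le_max_right _ _)⟩
  normal g s := by
    obtain ⟨T, hT⟩ := grp_normal g s.1 s.2
    exact ⟨(T, s.2), hT⟩
  atom a := ⟨({a}, 0), fun σ hσ => hσ.1 a (Finset.mem_singleton_self a)⟩

/-- transpositions -/
def sw (a b : At) : Gr := ⟨Equiv.swap a b, by
  refine (Set.toFinite {a, b}).subset ?_
  intro c hc
  by_contra h
  simp only [Set.mem_insert_iff, Set.mem_singleton_iff, not_or] at h
  exact hc (Equiv.swap_apply_of_ne_of_ne h.1 h.2)⟩

theorem sw_left (a b : At) : sw a b • a = b := Equiv.swap_apply_left a b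

theorem sw_right (a b : At) : sw a b • b = a := Equiv.swap_apply_right a b

theorem sw_of_ne {a b c : At} (h1 : c ≠ a) (h2 : c ≠ b) : sw a b • c = c :=
  Equiv.swap_apply_of_ne_of_ne h1 h2

theorem sw_self (a : At) : sw a a = 1 := Subtype.ext (Equiv.swap_self a)

theorem sw_mem {F : Finset At} {n : ℕ} {a b : At} (ha : a ∉ F) (hb : b ∉ F)
    (hab : ∀ i < n, (i ∈ a ↔ i ∈ b)) : sw a b ∈ grp F n := by
  refine ⟨fun c hc => sw_of_ne (fun h => ha (h ▸ hc)) (fun h => hb (h ▸ hc)), fun c i hi => ?_⟩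
  by_cases h1 : c = a
  · rw [h1, sw_left]; exact (hab i hi).symm
  · by_cases h2 : c = b
    · rw [h2, sw_right]; exact hab i hi
    · rw [sw_of_ne h1 h2]

open M

/-- Every infinite set of the model is dyadically filterbase infinite. -/
theorem dfbi_of_infinite (X : M sys) (hinf : (el X).Infinite) :
    DyadicallyFilterbaseInfinite om X := by
  classical
  obtain ⟨⟨F0, n0⟩, hs0⟩ := exists_supp X
  by_cases hA : ∃ y ∈ X, ∃ (F1 : Finset At) (n1 : ℕ), F0 ⊆ F1 ∧ n0 ≤ n1 ∧ ∃ a ∉ F1,
      Supp sys (insert a F1, n1) y ∧ ¬ Supp sys (F1, n1) y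
  · obtain ⟨y, hy, F1, n1, hF, hn, a, ha, hsy, hnsy⟩ := hA
    have hle : sys.H (F1, n1) ≤ sys.H (F0, n0) := grp_mono hF hn
    have hs1 : Supp sys (F1, n1) X := hs0.mono hle
    let C : Set At := {c | c ∉ F1 ∧ ∀ i < n1, (i ∈ c ↔ i ∈ a)}
    let f : At → M sys := fun c => sw a c • y
    have haC : a ∈ C := ⟨ha, fun i _ => Iff.rfl⟩
    have hfa : f a = y := by
      change sw a a • y = y
      rw [sw_self, one_smul]
    have hswC : ∀ c ∈ C, sw a c ∈ grp F1 n1 := fun c hc =>
      sw_mem ha hc.1 fun i hi => (hc.2 i hi).symm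
    have hσC : ∀ σ ∈ grp F1 n1, ∀ c ∈ C, σ • c ∈ C := by
      intro σ hσ c hc
      refine ⟨fun h => hc.1 ?_, fun i hi => by rw [hσ.2 c i hi, hc.2 i hi]⟩
      have h1 := hσ.1 _ h
      have h2 : σ • c = c := smul_left_cancel σ h1
      rwa [h2] at h
    have heq : ∀ σ ∈ grp F1 n1, ∀ c ∈ C, σ • f c = f (σ • c) := by
      intro σ hσ c hc
      have h1 : (sw a (σ • c))⁻¹ * σ * sw a c ∈ grp (insert a F1) n1 := by
        have h2 : (sw a (σ • c))⁻¹ * σ * sw a c ∈ grp F1 n1 :=
          (grp F1 n1).mul_mem ((grp F1 n1).mul_mem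
            ((grp F1 n1).inv_mem (hswC _ (hσC σ hσ c hc))) hσ) (hswC c hc)
        refine ⟨fun b hb => ?_, h2.2⟩
        rcases Finset.mem_insert.1 hb with h3 | h3
        · rw [h3, mul_smul, mul_smul, sw_left, inv_smul_eq_iff, sw_left]
        · exact h2.1 b h3
      have h3 := hsy _ h1
      rw [mul_smul, mul_smul, inv_smul_eq_iff] at h3
      exact h3
    have hXf : ∀ c ∈ C, f c ∈ X := fun c hc => (hs1.mem_iff (hswC c hc) y).2 hy
    have hinj : Set.InjOn f C := by
      intro c hc c' hc' hcc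
      by_contra hne
      have hconst : ∀ d ∈ C, f d = f c := by
        intro d hd
        by_cases hdc : d = c
        · rw [hdc]
        · have h1 : sw c' d ∈ grp F1 n1 := sw_mem hc'.1 hd.1 fun i hi => by
            rw [hc'.2 i hi, hd.2 i hi]
          have h2 := heq _ h1 c hc
          have h3 := heq _ h1 c' hc'
          rw [sw_of_ne hne (Ne.symm hdc)] at h2
          rw [sw_left] at h3
          rw [← h3, ← hcc, h2]
      refine hnsy fun σ hσ => ?_
      have h1 := heq σ hσ a haC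
      rw [hfa] at h1
      rw [h1, hconst _ (hσC σ hσ a haC), ← hconst a haC, hfa]
    let ρ : M sys → Finset ℕ := fun x => if h : ∃ c ∈ C, f c = x then h.choose else ∅
    have hρ : ∀ c ∈ C, ρ (f c) = c := by
      intro c hc
      have h : ∃ c' ∈ C, f c' = f c := ⟨c, hc, rfl⟩
      change (if h : ∃ c' ∈ C, f c' = f c then h.choose else ∅) = c
      rw [dif_pos h]
      exact hinj h.choose_spec.1 hc h.choose_spec.2
    have hρ' : ∀ x, (¬ ∃ c ∈ C, f c = x) → ρ x = ∅ := fun x hx => dif_neg hx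
    have hout : ∀ σ ∈ grp F1 n1, ∀ x, (¬ ∃ c ∈ C, f c = x) → ¬ ∃ c ∈ C, f c = σ • x := by
      rintro σ hσ x hx ⟨c, hc, hcx⟩
      refine hx ⟨σ⁻¹ • c, hσC _ ((grp F1 n1).inv_mem hσ) c hc, ?_⟩
      rw [← heq _ ((grp F1 n1).inv_mem hσ) c hc, hcx, inv_smul_smul]
    refine dfbi_of_rho hs1 n1 ρ ?_ ?_ ?_
    · intro σ hσ
      refine ((finite_moved σ).image f).subset ?_
      rintro x ⟨hx, hx'⟩
      by_cases h : ∃ c ∈ C, f c = x
      · obtain ⟨c, hc, rfl⟩ := h
        refine ⟨c, fun h => hx' ?_, rfl⟩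
        rw [heq σ hσ c hc, h]
      · exact (hx' (by rw [hρ' x h, hρ' _ (hout σ hσ x h)])).elim
    · intro n
      refine ⟨(F1, max n1 n), fun σ hσ x hx i hi => ?_⟩
      have hσ1 : σ ∈ grp F1 n1 := grp_mono (Finset.Subset.refl _) (le_max_left _ _) hσ
      by_cases h : ∃ c ∈ C, f c = x
      · obtain ⟨c, hc, rfl⟩ := h
        rw [heq σ hσ1 c hc, hρ _ (hσC σ hσ1 c hc), hρ c hc]
        exact hσ.2 c i (lt_of_lt_of_le hi (le_max_right _ _))
      · rw [hρ' x h, hρ' _ (hout σ hσ1 x h)]
    · intro n k hk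
      have h1 := (infinite_code n1 a n k hk).sdiff F1.finite_toSet
      have h2 : ({c : Finset ℕ | (∀ i < n1, (i ∈ c ↔ i ∈ a)) ∧ code n1 n c = k} \ (F1 : Set At)) ⊆ C := by
        rintro c ⟨hc, hc'⟩
        exact ⟨fun h => hc' h, hc.1⟩
      refine (h1.image (hinj.mono h2)).mono ?_
      rintro _ ⟨c, hc, rfl⟩
      refine ⟨hXf c (h2 hc), ?_⟩
      rw [hρ c (h2 hc)]
      exact hc.1.2
  · push Not at hA
    -- supports can be shrunk
    have hrem : ∀ y ∈ X, ∀ n1, n0 ≤ n1 → ∀ T : Finset At, Supp sys (F0 ∪ T, n1) y →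
        Supp sys (F0, n1) y := by
      intro y hy n1 hn T
      induction T using Finset.induction_on with
      | empty => intro h; rwa [Finset.union_empty] at h
      | @insert a T _ ih =>
        intro h
        rw [Finset.union_insert] at h
        by_cases ha : a ∈ F0 ∪ T
        · rw [Finset.insert_eq_of_mem ha] at h
          exact ih h
        · exact ih (hA y hy (F0 ∪ T) n1 Finset.subset_union_left hn a ha h)
    have hX : ∀ y ∈ X, ∃ n, n0 ≤ n ∧ Supp sys (F0, n) y := by
      intro y hy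
      obtain ⟨⟨F, n⟩, hs⟩ := exists_supp y
      refine ⟨max n0 n, le_max_left _ _, hrem y hy _ (le_max_left _ _) F ?_⟩
      exact hs.mono (grp_mono Finset.subset_union_right (le_max_right _ _))
    have hinv : ∀ y ∈ X, ∀ n, n0 ≤ n → Supp sys (F0, n) y → ∀ σ ∈ grp F0 n0,
        Supp sys (F0, n) (σ • y) := by
      intro y hy n hn hsy σ hσ
      obtain ⟨T, hT⟩ := grp_normal σ F0 n
      refine hrem _ ((hs0.mem_iff hσ y).2 hy) n hn T ?_
      intro τ hτ
      have h1 : τ ∈ grp T n := grp_mono Finset.subset_union_right le_rfl hτ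
      have h2 := hsy _ (hT τ h1)
      rw [mul_smul, mul_smul, inv_smul_eq_iff] at h2
      exact h2
    by_cases hB : ∃ n, n0 ≤ n ∧ {y | y ∈ X ∧ Supp sys (F0, n) y}.Infinite
    · obtain ⟨n, hn, hn'⟩ := hB
      obtain ⟨g, hg⟩ : ∃ g : ℕ → M sys, Function.Injective g ∧
          ∀ k, g k ∈ X ∧ Supp sys (F0, n) (g k) := by
        have := hn'.to_subtype
        let g := Infinite.natEmbedding {y | y ∈ X ∧ Supp sys (F0, n) y}
        exact ⟨fun k => (g k).1, fun a b h => g.injective (Subtype.ext h), fun k => (g k).2⟩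
      let lam : M sys → ℕ := fun x => if h : ∃ k, g k = x then h.choose else 0
      have hlam : ∀ k, lam (g k) = k := by
        intro k
        have h : ∃ k', g k' = g k := ⟨k, rfl⟩
        change (if h : ∃ k', g k' = g k then h.choose else 0) = k
        rw [dif_pos h]
        exact hg.1 h.choose_spec
      have hle : sys.H (F0, n) ≤ sys.H (F0, n0) := grp_mono (Finset.Subset.refl _) hn
      refine dfbi_of_lam (hs0.mono hle) lam ?_ ?_
      · intro σ hσ x hx
        by_cases h : ∃ k, g k = x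
        · obtain ⟨k, rfl⟩ := h
          rw [(hg.2 k).2 σ hσ]
        · have h' : ¬ ∃ k, g k = σ • x := by
            rintro ⟨k, hk⟩
            refine h ⟨k, ?_⟩
            have h1 := (hg.2 k).2 σ⁻¹ ((sys.H (F0, n)).inv_mem hσ)
            rw [hk, inv_smul_smul] at h1
            rw [hk, ← h1]
          have e1 : lam x = 0 := dif_neg h
          have e2 : lam (σ • x) = 0 := dif_neg h'
          rw [e1, e2]
      · have : lam '' el X = Set.univ := Set.eq_univ_of_forall fun k => ⟨g k, (hg.2 k).1, hlam k⟩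
        rw [this]
        exact Set.infinite_univ
    · push Not at hB
      let lam : M sys → ℕ := fun x => sInf {n | n0 ≤ n ∧ Supp sys (F0, n) x}
      refine dfbi_of_lam hs0 lam ?_ ?_
      · intro σ hσ x hx
        change sInf _ = sInf _
        congr 1
        ext n
        constructor
        · rintro ⟨h1, h2⟩
          refine ⟨h1, ?_⟩
          have := hinv _ ((hs0.mem_iff hσ x).2 hx) n h1 h2 σ⁻¹ ((grp F0 n0).inv_mem hσ)
          rwa [inv_smul_smul] at this
        · rintro ⟨h1, h2⟩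
          exact ⟨h1, hinv x hx n h1 h2 σ hσ⟩
      · intro hfin
        obtain ⟨N, hN⟩ := hfin.bddAbove
        refine hinf ((hB (max N n0) (le_max_right _ _)).subset ?_)
        intro x hx
        refine ⟨hx, ?_⟩
        have h1 : lam x ∈ {n | n0 ≤ n ∧ Supp sys (F0, n) x} := Nat.sInf_mem (hX x hx)
        have h2 : lam x ≤ N := hN ⟨x, hx, rfl⟩
        exact h1.2.mono (grp_mono (Finset.Subset.refl _) (h2.trans (le_max_left _ _)))

/-- The set of atoms is infinite but not weakly Dedekind-infinite. -/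
theorem not_wdi (X : M sys) (hX : ∀ x, x ∈ X ↔ Atom x) : ¬ WeaklyDedekindInfinite om X := by
  classical
  rintro ⟨f, hf, hinj, hval⟩
  obtain ⟨⟨F, n⟩, hs⟩ := exists_supp f
  have h1 : ∀ k : ℕ, ∃ Y, Rel f (num k) Y ∧ Supp sys (F, n) Y := by
    intro k
    obtain ⟨Y, hY, hY'⟩ := hf.2.2 _ (num_mem_om k)
    refine ⟨Y, hY, fun σ hσ => ?_⟩
    have := (rel_smul_iff hs hσ (num k) Y).2 hY
    rw [smul_num] at this
    exact hY' _ this
  choose Y hY hYs using h1
  let φ : M sys → Finset At × Finset (Finset ℕ) := fun y =>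
    (F.filter fun a => at' a ∈ y, (Finset.range n).powerset.filter fun r => ∃ a : At, a ∉ F ∧
      at' a ∈ y ∧ ∀ i < n, (i ∈ r ↔ i ∈ a))
  have key : ∀ k l, φ (Y k) = φ (Y l) → ∀ x ∈ Y k, x ∈ Y l := by
    intro k l h x hx
    obtain ⟨a, rfl⟩ := atom_iff.1 ((hX x).1 ((hval _ _ (hY k)).2 x hx))
    by_cases ha : a ∈ F
    · have h2 : a ∈ (φ (Y k)).1 := Finset.mem_filter.2 ⟨ha, hx⟩
      rw [h] at h2
      exact (Finset.mem_filter.1 h2).2
    · have h2 : a.filter (· < n) ∈ (φ (Y k)).2 := by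
        refine Finset.mem_filter.2 ⟨Finset.mem_powerset.2 fun i hi => ?_, a, ha, hx, fun i hi => ?_⟩
        · exact Finset.mem_range.2 (Finset.mem_filter.1 hi).2
        · simp [hi]
      rw [h] at h2
      obtain ⟨-, b, hb, hbY, hab⟩ := Finset.mem_filter.1 h2
      have hsw : sw b a ∈ grp F n := sw_mem hb ha fun i hi => by
        rw [← hab i hi]
        simp [hi]
      have h3 := ((hYs l).mem_iff hsw (at' b)).2 hbY
      rw [smul_at, sw_left] at h3
      exact h3
  have hφinj : Function.Injective fun k => φ (Y k) := by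
    intro k l h
    have : Y k = Y l := ext (hval _ _ (hY k)).1 (hval _ _ (hY l)).1 fun z =>
      ⟨key k l h z, key l k h.symm z⟩
    have h3 := hY l
    rw [← this] at h3
    exact num_inj.1 (hinj _ _ _ (hY k) h3)
  have hfin : (Set.range fun k => φ (Y k)).Finite := by
    refine ((F.powerset ×ˢ (Finset.range n).powerset.powerset).finite_toSet).subset ?_
    rintro _ ⟨k, rfl⟩
    refine Finset.mem_coe.2 (Finset.mem_product.2 ⟨Finset.mem_powerset.2 (Finset.filter_subset _ _),
      Finset.mem_powerset.2 (Finset.filter_subset _ _)⟩)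
  exact Set.infinite_range_of_injective hφinj hfin

theorem main : ∃ (M : Type 1) (_ : AtomStr M), ZFA M ∧ ∃ w : M, IsOmega w ∧ IDFBI w ∧ ¬ IWDI w := by
  refine ⟨M sys, inferInstance, zfa sys, om, isOmega_iff.2 rfl, ?_, ?_⟩
  · intro X _ hX
    exact dfbi_of_infinite X fun h => hX (finiteSet_iff.2 h)
  · intro h
    obtain ⟨X, hX, hX'⟩ := (zfa sys).atoms_set
    refine not_wdi X hX' (h X hX fun hfin => ?_)
    have h1 := finiteSet_iff.1 hfin
    have h2 : Function.Injective (at' : At → M sys) := fun a b h => at_inj.1 h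
    refine Set.infinite_range_of_injective h2 (h1.subset ?_)
    rintro _ ⟨a, rfl⟩
    exact (hX' _).2 (atom_at a)

end Pool.Agent.FM
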